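import Pool.Agent.Q201.DOAGModels
import Pool.Agent.Q201.DOAGCells
import Pool.Agent.Q201.Realize

/-!
# Cofinality of realisations over a small base in o-minimal theories: a counterexample

The theory is that of divisible ordered abelian groups, `M = ℚ·o`, and `p` is the type of an
element just below the set of all `u ≥ q·o`, `q` rational, `q > √2`. Then `b` is the only
realisation of `p` in `dcl(Mb)`, but `b + ε` realises `p` for each infinitesimal `ε` of the monster
model.
-/

set_option autoImplicit false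

namespace Pool.Agent.Results.MP_52937b_lc.NotCofinal

open FirstOrder FirstOrder.Language Cardinal

universe u

section Definitions

variable {L : FirstOrder.Language.{0, 0}} (s : L.Relations 2)

/-- The interpretation of the order symbol `s`. -/
def Lt {N : Type u} [L.Structure N] (x y : N) : Prop := Structure.RelMap s ![x, y]

/-- `x ≤ y`. -/
def Le {N : Type u} [L.Structure N] (x y : N) : Prop := Lt s x y ∨ x = y

/-- Points and open intervals with endpoints in `N ∪ {-∞, +∞}`. -/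
inductive IsInterval {N : Type u} [L.Structure N] : Set N → Prop
  | point (a : N) : IsInterval {a}
  | bounded (a b : N) : IsInterval {x | Lt s a x ∧ Lt s x b}
  | above (a : N) : IsInterval {x | Lt s a x}
  | below (b : N) : IsInterval {x | Lt s x b}
  | whole : IsInterval Set.univ

/-- `N` is o-minimal with respect to the symbol `s`: `s` is interpreted by a dense linear order
without endpoints, and each subset of `N` definable with parameters is a finite union of points and
open intervals. -/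
structure OMinimal (N : Type u) [L.Structure N] : Prop where
  irrefl : ∀ x : N, ¬ Lt s x x
  trans : ∀ x y z : N, Lt s x y → Lt s y z → Lt s x z
  total : ∀ x y : N, Lt s x y ∨ x = y ∨ Lt s y x
  dense : ∀ x y : N, Lt s x y → ∃ z, Lt s x z ∧ Lt s z y
  no_max : ∀ x : N, ∃ y, Lt s x y
  no_min : ∀ x : N, ∃ y, Lt s y x
  tame : ∀ S : Set N, (Set.univ : Set N).Definable₁ L S →
    ∃ F : Set (Set N), F.Finite ∧ (∀ C ∈ F, IsInterval s C) ∧ S = ⋃₀ F

/-- `T` is a complete o-minimal theory. -/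
def OMinimalTheory (T : L.Theory) : Prop :=
  T.IsComplete ∧ ∀ (N : Type u) [L.Structure N] [Nonempty N], N ⊨ T → OMinimal s N

/-- `U` is `κ`-saturated: each set of formulas `φ(x)` over a set `A` of fewer than `κ` parameters
which is finitely satisfiable in `U` is realised in `U`. -/
def Saturated (L : FirstOrder.Language.{0, 0}) (κ : Cardinal.{u}) (U : Type u) [L.Structure U] :
    Prop :=
  ∀ A : Set U, #A < κ → ∀ S : Set (L.Formula (A ⊕ Fin 1)),
    (∀ F : Finset (L.Formula (A ⊕ Fin 1)), (F : Set (L.Formula (A ⊕ Fin 1))) ⊆ S →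
      ∃ x : U, ∀ φ ∈ F, φ.Realize (Sum.elim Subtype.val fun _ => x)) →
    ∃ x : U, ∀ φ ∈ S, φ.Realize (Sum.elim Subtype.val fun _ => x)

/-- `U` is strongly `κ`-homogeneous: each elementary map from a set of fewer than `κ` elements of
`U` to `U` extends to an automorphism of `U`. -/
def StronglyHomogeneous (L : FirstOrder.Language.{0, 0}) (κ : Cardinal.{u}) (U : Type u)
    [L.Structure U] : Prop :=
  ∀ (A : Set U) (f : A → U), #A < κ →
    (∀ φ : L.Formula A, φ.Realize (Subtype.val : A → U) ↔ φ.Realize f) →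
    ∃ σ : U ≃[L] U, ∀ a : A, σ a = f a

variable {U W : Type u} [L.Structure U] [L.Structure W]

/-- The type over `U` of an element `b` of the elementary extension `W` of `U`. -/
def tp (j : U ↪ₑ[L] W) (b : W) : Set (L.Formula (U ⊕ Fin 1)) :=
  {φ | φ.Realize (Sum.elim j fun _ => b)}

/-- The global type `p` is `M`-invariant: it is fixed by each automorphism `σ` of `U` fixing `M`
pointwise. -/
def Invariant (M : Set U) (p : Set (L.Formula (U ⊕ Fin 1))) : Prop :=
  ∀ σ : U ≃[L] U, (∀ m ∈ M, σ m = m) →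
    ∀ φ : L.Formula (U ⊕ Fin 1), φ ∈ p ↔ φ.relabel (Sum.map σ id) ∈ p

/-- The formula `x ≤ d`. -/
def leF (d : U) : L.Formula (U ⊕ Fin 1) :=
  s.formula₂ (Term.var (Sum.inr 0)) (Term.var (Sum.inl d)) ⊔
    (Term.var (Sum.inr 0)).equal (Term.var (Sum.inl d))

/-- The set `R_p` of all `d` in `U` with `p(x) ⊢ x ≤ d`. -/
def Rset (p : Set (L.Formula (U ⊕ Fin 1))) : Set U := {d | leF s d ∈ p}

/-- `p` has small cofinality on the right: the coinitiality of `R_p` is less than `κ`. -/
def SmallRight (κ : Cardinal.{u}) (p : Set (L.Formula (U ⊕ Fin 1))) : Prop :=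
  ∃ C : Set U, C ⊆ Rset s p ∧ #C < κ ∧ ∀ d ∈ Rset s p, ∃ c ∈ C, Le s c d

/-- The definable closure in `W` of the set `C`. -/
def dcl (L : FirstOrder.Language.{0, 0}) {W : Type u} [L.Structure W] (C : Set W) : Set W :=
  {w | C.Definable₁ L {w}}

/-- The set `p(C)` of realisations in `C` of the type `p`. -/
def realisations (j : U ↪ₑ[L] W) (p : Set (L.Formula (U ⊕ Fin 1))) (C : Set W) : Set W :=
  {c | c ∈ C ∧ ∀ φ ∈ p, φ.Realize (Sum.elim j fun _ => c)}

/-- The cofinality statement of Q1 for the monster model `U`: for each small `M ≺ U`, each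
`M`-invariant global `1`-type `p = tp(b / U)` with small cofinality on the right, with `b` in an
elementary extension `W` of `U`, the set `p(dcl(Mb))` is cofinal in `p(dcl(Ub))`. -/
def CofinalityHolds (κ : Cardinal.{u}) (U : Type u) [L.Structure U] : Prop :=
  ∀ M : L.ElementarySubstructure U, #M < κ →
    ∀ (W : Type u) [L.Structure W] (j : U ↪ₑ[L] W) (b : W),
      Invariant (M : Set U) (tp j b) → SmallRight s κ (tp j b) →
      ∀ c ∈ realisations j (tp j b) (dcl L (Set.range j ∪ {b})),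
        ∃ e ∈ realisations j (tp j b) (dcl L (j '' (M : Set U) ∪ {b})), Le s c e

end Definitions

open Q200.DOAG Q201.DOAGM Q201.DOAGC

section Cut

variable {G : Type u} [AddCommGroup G] [LinearOrder G] [IsOrderedAddMonoid G]

/-- The set of all `u` with `u ≥ (m / n) o` for some `m / n > √2`. -/
def Up (o : G) : Set G := {u | ∃ n m : ℕ, 0 < n ∧ 2 * n ^ 2 < m ^ 2 ∧ m • o ≤ n • u}

theorem up_mono {o u v : G} (hu : u ∈ Up o) (huv : u ≤ v) : v ∈ Up o := by
  obtain ⟨n, m, hn, hnm, h⟩ := hu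
  exact ⟨n, m, hn, hnm, h.trans (nsmul_le_nsmul_right huv n)⟩

theorem zero_notMem {o : G} (ho : 0 < o) : (0 : G) ∉ Up o := by
  rintro ⟨n, m, hn, hnm, h⟩
  rw [smul_zero] at h
  have hm : 0 < m := by
    rcases Nat.eq_zero_or_pos m with rfl | h
    · simp at hnm
    · exact h
  exact absurd h (not_le.mpr (nsmul_pos ho hm.ne'))

omit [IsOrderedAddMonoid G] in
theorem two_mem {o : G} : (2 : ℕ) • o ∈ Up o := ⟨1, 2, one_pos, by norm_num, by simp⟩

theorem add_inf {o ε u : G} (hε : ∀ n : ℕ, n • ε < o) (h : u + ε ∈ Up o) : u ∈ Up o := by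
  obtain ⟨n, m, hn, hnm, h⟩ := h
  have hm : 1 ≤ m := by
    rcases Nat.eq_zero_or_pos m with rfl | h
    · simp at hnm
    · exact h
  refine ⟨2 * m * n, 2 * m ^ 2 - 1, by positivity, ?_, ?_⟩
  · have h1 : 1 ≤ 2 * m ^ 2 := by nlinarith
    zify [h1]
    have h2 : (2 * (n : ℤ) ^ 2 + 1) ≤ (m : ℤ) ^ 2 := by exact_mod_cast hnm
    have h3 : (1 : ℤ) ≤ m := by exact_mod_cast hm
    nlinarith [sq_nonneg (m : ℤ), mul_le_mul_of_nonneg_left h2 (by positivity : (0 : ℤ) ≤ 4 * m ^ 2)]
  · have h1 : (2 * m) • (m • o) ≤ (2 * m) • (n • (u + ε)) := nsmul_le_nsmul_right h _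
    rw [smul_smul, smul_smul, smul_add] at h1
    have h2 := hε (2 * m * n)
    have h3 : (2 * m * m) • o = (2 * m ^ 2 - 1) • o + o := by
      rw [← succ_nsmul]
      congr 1
      have h1 : 1 ≤ 2 * m ^ 2 := by nlinarith
      rw [Nat.sub_add_cancel h1]
      ring
    rw [h3] at h1
    have h4 : (2 * m ^ 2 - 1) • o + o ≤ (2 * m * n) • u + o := h1.trans (by gcongr)
    exact le_of_add_le_add_right h4

theorem low {o v : G} (ho : 0 < o) {n m : ℕ} (hn : 0 < n) (hnm : m ^ 2 ≤ 2 * n ^ 2)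
    (hv : n • v = m • o) : v ∉ Up o := by
  rintro ⟨n', m', hn', hnm', h⟩
  have h1 : (n * m') • o ≤ (n' * m) • o := by
    rw [mul_smul, mul_smul, ← hv, smul_comm n' n]
    exact nsmul_le_nsmul_right h n
  have h2 : n * m' ≤ n' * m := (nsmul_le_nsmul_iff_left ho).mp h1
  have h3 : (n * m') ^ 2 ≤ (n' * m) ^ 2 := Nat.pow_le_pow_left h2 2
  have h4 : n ^ 2 * (2 * n' ^ 2) < n ^ 2 * m' ^ 2 := by gcongr
  have h5 : n' ^ 2 * m ^ 2 ≤ n' ^ 2 * (2 * n ^ 2) := by gcongr
  nlinarith

/-- The rational multiples of `o`. -/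
def ratMul (o : G) : AddSubgroup G where
  carrier := {u | ∃ n m : ℤ, n ≠ 0 ∧ n • u = m • o}
  zero_mem' := ⟨1, 0, one_ne_zero, by simp⟩
  add_mem' := by
    rintro a b ⟨n, m, hn, h⟩ ⟨n', m', hn', h'⟩
    refine ⟨n * n', n' * m + n * m', mul_ne_zero hn hn', ?_⟩
    rw [smul_add, add_smul, mul_comm n n', mul_smul, h, mul_comm n' n, mul_smul, h', mul_smul,
      mul_smul]
  neg_mem' := by
    rintro a ⟨n, m, hn, h⟩
    exact ⟨n, -m, hn, by rw [smul_neg, h, neg_smul]⟩

omit [IsOrderedAddMonoid G] [LinearOrder G] in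
theorem mem_ratMul {o u : G} : u ∈ ratMul o ↔ ∃ n m : ℤ, n ≠ 0 ∧ n • u = m • o := Iff.rfl

theorem zsmul_inj {n : ℤ} (hn : n ≠ 0) {x y : G} (h : n • x = n • y) : x = y := by
  have h1 : n • (x - y) = 0 := by rw [smul_sub, h, sub_self]
  rcases zsmul_pos_iff' hn (x - y) with ⟨h2, h3⟩
  rw [h1] at h2 h3
  rcases lt_trichotomy (x - y) 0 with h4 | h4 | h4
  · rcases lt_or_gt_of_ne hn with h5 | h5
    · exact absurd (h2.mpr (Or.inr ⟨h5, h4⟩)) (lt_irrefl _)
    · exact absurd (h3.mpr (Or.inl ⟨h5, h4⟩)) (lt_irrefl _)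
  · exact sub_eq_zero.mp h4
  · rcases lt_or_gt_of_ne hn with h5 | h5
    · exact absurd (h3.mpr (Or.inr ⟨h5, h4⟩)) (lt_irrefl _)
    · exact absurd (h2.mpr (Or.inl ⟨h5, h4⟩)) (lt_irrefl _)

theorem ratMul_countable (o : G) : (ratMul o : Set G).Countable := by
  choose! f g h using fun (u : G) (hu : u ∈ ratMul o) => mem_ratMul.mp hu
  refine Set.MapsTo.countable_of_injOn (f := fun u => (f u, g u)) (t := Set.univ)
    (fun _ _ => Set.mem_univ _) ?_ (Set.countable_univ)
  intro u hu v hv huv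
  have h1 : f u = f v := congrArg Prod.fst huv
  have h2 : g u = g v := congrArg Prod.snd huv
  have h3 := (h u hu).2
  have h4 := (h v hv).2
  rw [← h1, ← h2, ← h3] at h4
  exact (zsmul_inj (h u hu).1 h4).symm

omit [LinearOrder G] [IsOrderedAddMonoid G] in
theorem div_mem {o p x : G} {m : ℤ} (hm : m ≠ 0) (hx : x ∈ ratMul o) (h : m • p = x) :
    p ∈ ratMul o := by
  obtain ⟨n, k, hn, h'⟩ := hx
  exact ⟨n * m, k, mul_ne_zero hn hm, by rw [mul_smul, h, h']⟩

omit [LinearOrder G] [IsOrderedAddMonoid G] in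
theorem ev_mem {A : Type*} (f : A → G) (H : AddSubgroup G) (hf : ∀ a, f a ∈ H) (l : A →₀ ℤ) :
    ev l f ∈ H :=
  H.sum_mem fun a _ => H.zsmul_mem (hf a) _

attribute [local instance] ogStructure

/-- The set of rational multiples of `o` meets all nonempty sets definable over it. -/
theorem ratMul_meets [Nontrivial G] (hdiv : ∀ (m : ℤ), m ≠ 0 → ∀ g : G, ∃ h : G, m • h = g)
    {o : G} (ho : 0 < o) : Log.MeetsDefinable (ratMul o : Set G) := by
  classical
  intro D hD hdef
  obtain ⟨x, hx⟩ := hD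
  rw [Set.Definable₁, Set.definable_iff_exists_formula_sum] at hdef
  obtain ⟨φ, hφ⟩ := hdef
  obtain ⟨P, hP, hφP⟩ := finite_points (G := G) hdiv φ
    (Subtype.val : ↥((ratMul o : AddSubgroup G) : Set G) → G)
  have hr : ∀ x : G, x ∈ D ↔ φ.Realize (Sum.elim Subtype.val (fun _ : Fin 1 => x)) := by
    intro x
    have := Set.ext_iff.mp hφ (fun _ => x)
    simpa using this
  have hPM : ∀ p ∈ P, p ∈ ratMul o := by
    intro p hp
    obtain ⟨m, l, hm, h⟩ := hP p hp
    exact div_mem hm (ev_mem _ _ (fun a => a.2) l) h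
  by_cases hxP : x ∈ P
  · exact ⟨x, hx, hPM x hxP⟩
  · let S := ratMul o
    have hS : ∀ (m : ℤ), m ≠ 0 → ∀ g : S, ∃ h : S, m • h = g := by
      intro m hm g
      obtain ⟨h, hh⟩ := hdiv m hm g
      exact ⟨⟨h, div_mem hm g.2 hh⟩, Subtype.ext (by simpa using hh)⟩
    have hoS : o ∈ ratMul o := ⟨1, 1, one_ne_zero, rfl⟩
    have : Nontrivial S := ⟨⟨⟨o, hoS⟩, 0, fun h => ho.ne' (congrArg Subtype.val h)⟩⟩
    have := noMax (G := S)
    have := noMin (G := S)
    have := dense hS
    obtain ⟨y, h1, h2⟩ := Order.exists_between_finsets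
      (Finset.univ.filter (fun p : P => (p : G) < x) |>.image
        (fun p : P => (⟨p, hPM p p.2⟩ : S)))
      (Finset.univ.filter (fun p : P => x < (p : G)) |>.image
        (fun p : P => (⟨p, hPM p p.2⟩ : S))) (by
        intro a ha b hb
        simp only [Finset.mem_image, Finset.mem_filter] at ha hb
        obtain ⟨p, ⟨_, hp⟩, rfl⟩ := ha
        obtain ⟨q, ⟨_, hq⟩, rfl⟩ := hb
        exact hp.trans hq)
    refine ⟨y, ?_, y.2⟩
    rw [hr] at hx ⊢
    refine (hφP x y fun p hp => ?_).mp hx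
    rcases lt_trichotomy p x with h | h | h
    · have h3 : p < (y : G) := h1 ⟨p, hPM p hp⟩ (Finset.mem_image.mpr
        ⟨⟨p, hp⟩, Finset.mem_filter.mpr ⟨Finset.mem_univ _, h⟩, rfl⟩)
      exact ⟨⟨fun _ => h3, fun _ => h⟩, ⟨fun hh => absurd hh (not_lt.mpr h.le),
        fun hh => absurd hh (not_lt.mpr h3.le)⟩⟩
    · exact absurd (h ▸ hp) hxP
    · have h3 : (y : G) < p := h2 ⟨p, hPM p hp⟩ (Finset.mem_image.mpr
        ⟨⟨p, hp⟩, Finset.mem_filter.mpr ⟨Finset.mem_univ _, h⟩, rfl⟩)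
      exact ⟨⟨fun hh => absurd hh (not_lt.mpr h.le),
        fun hh => absurd hh (not_lt.mpr h3.le)⟩, ⟨fun _ => h3, fun _ => h⟩⟩

end Cut

attribute [local instance] ogStructure

section Emb

variable {U W : Type u} [AddCommGroup U] [LinearOrder U] [IsOrderedAddMonoid U] [AddCommGroup W]
  [LinearOrder W] [IsOrderedAddMonoid W]

omit [IsOrderedAddMonoid U] [IsOrderedAddMonoid W] in
theorem emb_add (j : U ↪ₑ[Log] W) (x y : U) : j (x + y) = j x + j y :=
  j.map_fun addS ![x, y]

omit [IsOrderedAddMonoid U] [IsOrderedAddMonoid W] in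
theorem emb_lt (j : U ↪ₑ[Log] W) (x y : U) : j x < j y ↔ x < y :=
  j.map_rel ltS ![x, y]

/-- The group homomorphism underlying an elementary embedding. -/
def hom (j : U ↪ₑ[Log] W) : U →+ W := AddMonoidHom.mk' j (emb_add j)

omit [IsOrderedAddMonoid U] [IsOrderedAddMonoid W] in
theorem hom_apply (j : U ↪ₑ[Log] W) (x : U) : hom j x = j x := rfl

omit [LinearOrder U] [IsOrderedAddMonoid U] [LinearOrder W] [IsOrderedAddMonoid W] in
theorem ev_hom {A : Type*} (h : U →+ W) (l : A →₀ ℤ) (f : A → U) :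
    ev l (fun a => h (f a)) = h (ev l f) := by
  unfold ev
  rw [Finsupp.sum, Finsupp.sum, map_sum]
  exact Finset.sum_congr rfl fun a _ => (map_zsmul h _ _).symm

/-- `x` lies in the cut just below `Up o`. -/
def InCut (j : U ↪ₑ[Log] W) (o : U) (x : W) : Prop :=
  (∀ u, u ∉ Up o → j u < x) ∧ ∀ u, u ∈ Up o → x < j u

omit [IsOrderedAddMonoid U] in
theorem sign_eq {j : U ↪ₑ[Log] W} {o : U} (hdU : ∀ (m : ℤ), m ≠ 0 → ∀ g : U, ∃ h : U, m • h = g)
    {x x' : W} (hx : InCut j o x) (hx' : InCut j o x') {a a' : U} {m : ℤ}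
    (h0 : (0 < a ↔ 0 < a') ∧ (a < 0 ↔ a' < 0))
    (hd : m ≠ 0 → ∀ d d' : U, m • d = -a → m • d' = -a' → (d ∈ Up o ↔ d' ∈ Up o)) :
    (0 < j a + m • x ↔ 0 < j a' + m • x') ∧ (j a + m • x < 0 ↔ j a' + m • x' < 0) := by
  have hj0 : j 0 = 0 := map_zero (hom j)
  have hcut : ∀ {x : W}, InCut j o x → ∀ d, (0 < x - j d ↔ d ∉ Up o) ∧ (x - j d < 0 ↔ d ∈ Up o) := by
    intro x hx d
    by_cases h : d ∈ Up o
    · have h1 := hx.2 d h
      refine ⟨⟨fun h2 => ?_, fun h2 => absurd h h2⟩, ⟨fun _ => h, fun _ => sub_neg.mpr h1⟩⟩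
      exact absurd (sub_pos.mp h2) (not_lt.mpr h1.le)
    · have h1 := hx.1 d h
      refine ⟨⟨fun _ => h, fun _ => sub_pos.mpr h1⟩, ⟨fun h2 => ?_, fun h2 => absurd h2 h⟩⟩
      exact absurd (sub_neg.mp h2) (not_lt.mpr h1.le)
  by_cases hm : m = 0
  · subst hm
    rw [zero_smul, zero_smul, add_zero, add_zero, ← hj0, emb_lt, emb_lt, emb_lt, emb_lt]
    exact h0
  · obtain ⟨d, hda⟩ := hdU m hm (-a)
    obtain ⟨d', hda'⟩ := hdU m hm (-a')
    have e : ∀ (x : W) (a d : U), m • d = -a → j a + m • x = m • (x - j d) := by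
      intro x a d h
      have h1 : m • j d = - j a := by
        rw [← hom_apply, ← map_zsmul, h, map_neg, hom_apply]
      rw [smul_sub, h1]
      abel
    rw [e x a d hda, e x' a' d' hda', (zsmul_pos_iff' hm _).1, (zsmul_pos_iff' hm _).1,
      (zsmul_pos_iff' hm _).2, (zsmul_pos_iff' hm _).2, (hcut hx d).1, (hcut hx d).2,
      (hcut hx' d').1, (hcut hx' d').2, hd hm d d' hda hda']
    exact ⟨Iff.rfl, Iff.rfl⟩

/-- All elements of the cut have the same type. -/
theorem tp_eq [Nontrivial W] {j : U ↪ₑ[Log] W} {o : U}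
    (hdU : ∀ (m : ℤ), m ≠ 0 → ∀ g : U, ∃ h : U, m • h = g)
    (hdW : ∀ (m : ℤ), m ≠ 0 → ∀ g : W, ∃ h : W, m • h = g) {x x' : W}
    (hx : InCut j o x) (hx' : InCut j o x') (φ : Log.Formula (U ⊕ Fin 1)) :
    φ.Realize (Sum.elim j fun _ => x) ↔ φ.Realize (Sum.elim j fun _ => x') := by
  obtain ⟨Λ, hΛ⟩ := finite_signs (G := W) hdW φ
  refine hΛ j j x x' fun q _ => ?_
  have h1 : ev q.1 (j : U → W) = j (ev q.1 id) := ev_hom (hom j) q.1 id
  rw [h1]
  refine sign_eq hdU hx hx' ⟨Iff.rfl, Iff.rfl⟩ fun hm d d' h h' => ?_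
  rw [zsmul_inj hm (h.trans h'.symm)]

omit [IsOrderedAddMonoid U] [IsOrderedAddMonoid W] in
/-- Realisations of the type of `b` lie in the cut. -/
theorem cut_of_real {j : U ↪ₑ[Log] W} {o : U} {b x : W} (hb : InCut j o b)
    (hx : ∀ φ ∈ tp j b, φ.Realize (Sum.elim j fun _ => x)) : InCut j o x := by
  refine ⟨fun u hu => ?_, fun u hu => ?_⟩
  · have h1 : (ltS.formula₂ (Term.var (Sum.inl u)) (Term.var (Sum.inr 0)) :
        Log.Formula (U ⊕ Fin 1)) ∈ tp j b := by
      change Formula.Realize _ _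
      rw [Formula.realize_rel₂]
      exact hb.1 u hu
    have h2 := hx _ h1
    rw [Formula.realize_rel₂] at h2
    exact h2
  · have h1 : (ltS.formula₂ (Term.var (Sum.inr 0)) (Term.var (Sum.inl u)) :
        Log.Formula (U ⊕ Fin 1)) ∈ tp j b := by
      change Formula.Realize _ _
      rw [Formula.realize_rel₂]
      exact hb.2 u hu
    have h2 := hx _ h1
    rw [Formula.realize_rel₂] at h2
    exact h2

theorem bounds {j : U ↪ₑ[Log] W} {o : U} (ho : 0 < o)
    (hdU : ∀ (m : ℤ), m ≠ 0 → ∀ g : U, ∃ h : U, m • h = g) {x : W} (hx : InCut j o x)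
    {n m : ℕ} (hn : 0 < n) :
    (m ^ 2 ≤ 2 * n ^ 2 → m • j o < n • x) ∧ (2 * n ^ 2 < m ^ 2 → n • x < m • j o) := by
  obtain ⟨v, hv⟩ := hdU n (by exact_mod_cast hn.ne') (m • o)
  rw [natCast_zsmul] at hv
  have hjv : n • j v = m • j o := by
    rw [← hom_apply, ← hom_apply, ← map_nsmul, ← map_nsmul, hv]
  refine ⟨fun h => ?_, fun h => ?_⟩
  · rw [← hjv]
    exact nsmul_lt_nsmul_right hn.ne' (hx.1 v (low ho hn h hv))
  · rw [← hjv]
    exact nsmul_lt_nsmul_right hn.ne' (hx.2 v ⟨n, m, hn, h, hv.ge⟩)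

/-- The rational rigidity of the cut at `√2`. -/
theorem unique {j : U ↪ₑ[Log] W} {o : U} (ho : 0 < o)
    (hdU : ∀ (m : ℤ), m ≠ 0 → ∀ g : U, ∃ h : U, m • h = g) {e b : W} (he : InCut j o e)
    (hb : InCut j o b) {k r n : ℤ} (hk : k ≠ 0) (h : k • e = r • j o + n • b) : e = b := by
  have hjo : 0 < j o := by
    have := (emb_lt j 0 o).mpr ho
    rwa [← hom_apply, map_zero] at this
  have key : ∀ N : ℕ, 0 < N → |(N : ℤ) * r - (k - n) * (Nat.sqrt (2 * N ^ 2) : ℤ)| ≤ |k| + |n| := by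
    intro N hN
    set m := Nat.sqrt (2 * N ^ 2) with hm
    have h1 : m ^ 2 ≤ 2 * N ^ 2 := Nat.sqrt_le' _
    have h2 : 2 * N ^ 2 < (m + 1) ^ 2 := Nat.lt_succ_sqrt' _
    have hA : ∀ {x : W}, InCut j o x → 0 < N • x - m • j o ∧ N • x - m • j o < j o := by
      intro x hx
      refine ⟨sub_pos.mpr ((bounds ho hdU hx hN).1 h1), ?_⟩
      rw [sub_lt_iff_lt_add', ← succ_nsmul]
      exact (bounds ho hdU hx hN).2 h2
    have hAe := hA he
    have hAb := hA hb
    have heq : ((N : ℤ) * r - (k - n) * (m : ℤ)) • j o =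
        k • (N • e - m • j o) - n • (N • b - m • j o) := by
      have h3 : (N : ℤ) • (k • e) = (N : ℤ) • (r • j o + n • b) := by rw [h]
      rw [← natCast_zsmul e N, ← natCast_zsmul b N, ← natCast_zsmul (j o) m]
      rw [smul_add] at h3
      rw [sub_smul, mul_smul, eq_sub_of_add_eq h3.symm]
      module
    have h4 : |(N : ℤ) * r - (k - n) * (m : ℤ)| • j o ≤ (|k| + |n|) • j o := by
      calc |(N : ℤ) * r - (k - n) * (m : ℤ)| • j o
          = |((N : ℤ) * r - (k - n) * (m : ℤ)) • j o| := by rw [abs_zsmul, abs_of_pos hjo]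
        _ = |k • (N • e - m • j o) - n • (N • b - m • j o)| := by rw [heq]
        _ ≤ |k • (N • e - m • j o)| + |n • (N • b - m • j o)| := abs_sub _ _
        _ = |k| • (N • e - m • j o) + |n| • (N • b - m • j o) := by
            rw [abs_zsmul, abs_zsmul, abs_of_pos hAe.1, abs_of_pos hAb.1]
        _ ≤ |k| • j o + |n| • j o := by
            gcongr
            · exact hAe.2.le
            · exact hAb.2.le
        _ = _ := (add_smul _ _ _).symm
    exact (zsmul_le_zsmul_iff_left hjo).mp h4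
  have hreal : (r : ℝ) = (k - n : ℤ) * Real.sqrt 2 := by
    by_contra hne
    have hpos : 0 < |(r : ℝ) - (k - n : ℤ) * Real.sqrt 2| := abs_pos.mpr (sub_ne_zero.mpr hne)
    obtain ⟨N, hN⟩ := exists_nat_gt (((|k| + |n| + |k - n| : ℤ) : ℝ) /
      |(r : ℝ) - (k - n : ℤ) * Real.sqrt 2|)
    rw [div_lt_iff₀ hpos] at hN
    have hN0 : 0 < N := by
      rcases Nat.eq_zero_or_pos N with rfl | h
      · exfalso
        rw [Nat.cast_zero, zero_mul] at hN
        have : (0 : ℝ) ≤ ((|k| + |n| + |k - n| : ℤ) : ℝ) := by positivity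
        linarith
      · exact h
    have h1 := key N hN0
    set m := Nat.sqrt (2 * N ^ 2) with hm
    have h2 : m ^ 2 ≤ 2 * N ^ 2 := Nat.sqrt_le' _
    have h3 : 2 * N ^ 2 < (m + 1) ^ 2 := Nat.lt_succ_sqrt' _
    have h4 : |Real.sqrt 2 * N - m| ≤ 1 := by
      have e1 : (m : ℝ) ≤ Real.sqrt 2 * N := by
        rw [← sq_le_sq₀ (by positivity) (by positivity)]
        rw [mul_pow, Real.sq_sqrt (by norm_num)]
        exact_mod_cast h2
      have e2 : Real.sqrt 2 * N < m + 1 := by
        apply lt_of_pow_lt_pow_left₀ 2 (by positivity)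
        rw [mul_pow, Real.sq_sqrt (by norm_num)]
        exact_mod_cast h3
      rw [abs_le]
      constructor <;> linarith
    have h5 : |(N : ℝ) * r - (k - n : ℤ) * (m : ℝ)| ≤ ((|k| + |n| : ℤ) : ℝ) := by
      have := (Int.cast_le (R := ℝ)).mpr h1
      rw [Int.cast_abs] at this
      push_cast at this ⊢
      exact this
    have h6 : (N : ℝ) * |(r : ℝ) - (k - n : ℤ) * Real.sqrt 2| ≤
        ((|k| + |n| + |k - n| : ℤ) : ℝ) := by
      calc (N : ℝ) * |(r : ℝ) - (k - n : ℤ) * Real.sqrt 2|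
          = |(N : ℝ) * ((r : ℝ) - (k - n : ℤ) * Real.sqrt 2)| := by
            rw [abs_mul, Nat.abs_cast]
        _ = |((N : ℝ) * r - (k - n : ℤ) * (m : ℝ)) - (k - n : ℤ) * (Real.sqrt 2 * N - m)| := by
            congr 1; ring
        _ ≤ |(N : ℝ) * r - (k - n : ℤ) * (m : ℝ)| + |((k - n : ℤ) : ℝ) * (Real.sqrt 2 * N - m)| :=
            abs_sub _ _
        _ ≤ ((|k| + |n| : ℤ) : ℝ) + |((k - n : ℤ) : ℝ)| * 1 := by
            rw [abs_mul]
            gcongr
        _ = _ := by push_cast; ring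
    linarith
  have hirr : Irrational (Real.sqrt 2) := irrational_sqrt_two
  have hkn : k - n = 0 := by
    by_contra hne
    apply hirr
    refine ⟨(r : ℚ) / ((k - n : ℤ) : ℚ), ?_⟩
    push_cast
    have : ((k - n : ℤ) : ℝ) ≠ 0 := by exact_mod_cast hne
    rw [hreal]
    push_cast at this ⊢
    field_simp
  have hr0 : r = 0 := by
    rw [hkn, Int.cast_zero, zero_mul] at hreal
    exact_mod_cast hreal
  rw [hr0, zero_smul, zero_add, ← sub_eq_zero.mp hkn] at h
  exact zsmul_inj hk h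

/-- The counterexample for given `b`, `ε`. -/
theorem counterexample [Nontrivial U] [Nontrivial W] {j : U ↪ₑ[Log] W} {o ε : U} (ho : 0 < o)
    (hdU : ∀ (m : ℤ), m ≠ 0 → ∀ g : U, ∃ h : U, m • h = g)
    (hdW : ∀ (m : ℤ), m ≠ 0 → ∀ g : W, ∃ h : W, m • h = g) {b : W} (hb : InCut j o b)
    (hε0 : 0 < ε) (hε : ∀ n : ℕ, n • ε < o) {κ : Cardinal.{u}} (hκ : ℵ₀ < κ) :
    ∃ M : Log.ElementarySubstructure U, #M < κ ∧ Invariant (M : Set U) (tp j b) ∧
      SmallRight ltS κ (tp j b) ∧
      ∃ c ∈ realisations j (tp j b) (dcl Log (Set.range j ∪ {b})),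
        ∀ e ∈ realisations j (tp j b) (dcl Log (j '' (M : Set U) ∪ {b})), ¬ Le ltS c e := by
  classical
  have hM := ratMul_meets hdU ho
  have hMeq : (hM.toElementarySubstructure : Set U) = ratMul o := hM.closure_eq_self
  have hoM : o ∈ ratMul o := ⟨1, 1, one_ne_zero, rfl⟩
  have hR : Rset ltS (tp j b) = Up o := by
    ext d
    have h1 : d ∈ Rset ltS (tp j b) ↔ b < j d ∨ b = j d := by
      change (leF ltS d).Realize _ ↔ _
      rw [leF, Formula.realize_sup, Formula.realize_rel₂, Formula.realize_equal]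
      exact Iff.rfl
    rw [h1]
    constructor
    · intro h
      by_contra hc
      have := hb.1 d hc
      rcases h with h | h
      · exact absurd this (not_lt.mpr h.le)
      · exact absurd h this.ne'
    · intro h
      exact Or.inl (hb.2 d h)
  have hjε : 0 < j ε := by
    have := (emb_lt j 0 ε).mpr hε0
    rwa [← hom_apply, map_zero] at this
  have hc : InCut j o (b + j ε) := by
    refine ⟨fun u hu => (hb.1 u hu).trans (by simpa using hjε), fun u hu => ?_⟩
    have h1 : u - ε ∈ Up o := by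
      by_contra h
      exact h (add_inf hε (by rwa [sub_add_cancel]))
    have h2 := hb.2 _ h1
    rw [← hom_apply, map_sub, hom_apply, hom_apply] at h2
    exact lt_sub_iff_add_lt.mp h2
  refine ⟨hM.toElementarySubstructure, ?_, ?_, ?_, b + j ε, ⟨?_, ?_⟩, ?_⟩
  · refine lt_of_le_of_lt ?_ hκ
    have h1 : (hM.toElementarySubstructure : Set U).Countable := by
      rw [hMeq]
      exact ratMul_countable o
    exact Cardinal.mk_le_aleph0_iff.mpr h1
  · intro σ hσ φ
    have hσo : σ o = o := hσ o (by rw [hMeq]; exact hoM)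
    have hadd : ∀ x y : U, σ (x + y) = σ x + σ y := fun x y => σ.map_fun addS ![x, y]
    have hlt : ∀ x y : U, σ x < σ y ↔ x < y := fun x y => σ.map_rel ltS ![x, y]
    let τ : U →+ U := AddMonoidHom.mk' σ hadd
    have hτ : ∀ x, τ x = σ x := fun _ => rfl
    have hUp : ∀ d : U, d ∈ Up o ↔ σ d ∈ Up o := by
      intro d
      have h1 : ∀ n m : ℕ, m • o ≤ n • d ↔ m • o ≤ n • σ d := by
        intro n m
        have h2 : σ (m • o) = m • o := by rw [← hτ, map_nsmul, hτ, hσo]
        have h3 : σ (n • d) = n • σ d := by rw [← hτ, map_nsmul, hτ]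
        rw [← not_lt, ← not_lt, ← hlt, h2, h3]
      constructor
      · rintro ⟨n, m, hn, hnm, h⟩
        exact ⟨n, m, hn, hnm, (h1 n m).mp h⟩
      · rintro ⟨n, m, hn, hnm, h⟩
        exact ⟨n, m, hn, hnm, (h1 n m).mpr h⟩
    change φ.Realize (Sum.elim j fun _ => b) ↔
      (φ.relabel (Sum.map σ id)).Realize (Sum.elim j fun _ => b)
    rw [Formula.realize_relabel]
    have hcomp : (Sum.elim j fun _ => b) ∘ Sum.map σ id =
        Sum.elim (fun u => j (σ u)) (fun _ : Fin 1 => b) := by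
      funext x
      rcases x with x | x <;> rfl
    rw [hcomp]
    obtain ⟨Λ, hΛ⟩ := finite_signs (G := W) hdW φ
    refine hΛ j (fun u => j (σ u)) b b fun q _ => ?_
    have h1 : ev q.1 (j : U → W) = j (ev q.1 id) := ev_hom (hom j) q.1 id
    have h2 : ev q.1 (fun u => j (σ u)) = j (σ (ev q.1 id)) := ev_hom ((hom j).comp τ) q.1 id
    rw [h1, h2]
    have hσ0 : σ 0 = 0 := map_zero τ
    refine sign_eq hdU hb hb ⟨?_, ?_⟩ fun hm d d' h h' => ?_
    · conv_rhs => rw [← hσ0]
      exact (hlt _ _).symm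
    · conv_rhs => rw [← hσ0]
      exact (hlt _ _).symm
    · have h3 : q.2 • σ d = - σ (ev q.1 id) := by
        rw [← hτ, ← map_zsmul, h, map_neg, hτ]
      rw [zsmul_inj hm (h'.trans h3.symm)]
      exact hUp d
  · refine ⟨(ratMul o : Set U) ∩ Up o, ?_, ?_, ?_⟩
    · rw [hR]
      exact Set.inter_subset_right
    · refine lt_of_le_of_lt ?_ hκ
      exact Cardinal.mk_le_aleph0_iff.mpr ((ratMul_countable o).mono Set.inter_subset_left)
    · rw [hR]
      rintro d ⟨n, m, hn, hnm, h⟩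
      obtain ⟨v, hv⟩ := hdU n (by exact_mod_cast hn.ne') (m • o)
      refine ⟨v, ⟨⟨n, m, by exact_mod_cast hn.ne', by rw [hv, natCast_zsmul]⟩, n, m, hn, hnm, ?_⟩, ?_⟩
      · rw [natCast_zsmul] at hv
        exact hv.ge
      · rw [natCast_zsmul] at hv
        rw [← hv] at h
        have h2 : v ≤ d := (nsmul_le_nsmul_iff_right hn.ne').mp h
        rcases h2.lt_or_eq with h3 | h3
        · exact Or.inl h3
        · exact Or.inr h3
  · change Set.Definable₁ _ _ _
    rw [Set.Definable₁, Set.definable_iff_exists_formula_sum]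
    refine ⟨(Term.var (Sum.inr 0)).equal (addS.apply₂
      (Term.var (Sum.inl ⟨b, Set.mem_union_right _ rfl⟩))
      (Term.var (Sum.inl ⟨j ε, Set.mem_union_left _ ⟨ε, rfl⟩⟩))), ?_⟩
    ext x
    rw [Set.mem_ofPred_eq, Set.mem_ofPred_eq, Formula.realize_equal, Term.realize_functions_apply₂]
    exact Iff.rfl
  · intro φ hφ
    exact (tp_eq hdU hdW hb hc φ).mp hφ
  · rintro e ⟨he, he'⟩ hle
    have hecut : InCut j o e := cut_of_real hb he'
    obtain ⟨k, l, hk, hkl⟩ := dcl_form hdW he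
    have hform : ∃ (n r i : ℤ), n ≠ 0 ∧ n • ev l Subtype.val = r • j o + i • b := by
      clear hkl
      induction l using Finsupp.induction_linear with
      | zero => exact ⟨1, 0, 0, one_ne_zero, by simp [ev]⟩
      | add l l' h h' =>
        obtain ⟨n, r, i, hn, h⟩ := h
        obtain ⟨n', r', i', hn', h'⟩ := h'
        refine ⟨n * n', n' * r + n * r', n' * i + n * i', mul_ne_zero hn hn', ?_⟩
        rw [ev_add, smul_add, mul_comm n n', mul_smul, h, mul_comm n' n, mul_smul, h']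
        module
      | single a c =>
        rw [ev_single]
        rcases a.2 with ⟨m0, hm0, ha⟩ | ha
        · rw [hMeq] at hm0
          obtain ⟨n, r, hn, h⟩ := hm0
          refine ⟨n, c * r, 0, hn, ?_⟩
          have h1 : n • j m0 = r • j o := by
            rw [← hom_apply, ← hom_apply, ← map_zsmul, ← map_zsmul, h]
          rw [← ha, smul_comm, h1]
          module
        · have ha' : (a : W) = b := ha
          exact ⟨1, 0, c, one_ne_zero, by rw [ha']; module⟩
    obtain ⟨n, r, i, hn, hnri⟩ := hform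
    have heb : e = b := unique ho hdU hecut hb (k := n * k) (mul_ne_zero hn hk) (r := r) (n := i)
      (by rw [mul_smul, hkl, hnri])
    rcases hle with h | h
    · have h' : b + j ε < e := h
      rw [heb] at h'
      exact absurd h' (not_lt.mpr (by simpa using hjε.le))
    · rw [heb] at h
      exact hjε.ne' (by simpa using h)

end Emb

/-- Models of the theory are o-minimal. -/
theorem omin : OMinimalTheory.{u} ltS Tq := by
  refine ⟨?_, fun N i _ hN => ?_⟩
  · exact completeTheory.isComplete Log ℚ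
  · obtain ⟨g, o, h1, h2, h3, rfl⟩ := exists_group N
    have := dense h3
    have := noMax (G := N)
    have := noMin (G := N)
    refine ⟨fun x => lt_irrefl x, fun x y z => lt_trans, fun x y => lt_trichotomy x y,
      fun x y h => exists_between h, fun x => exists_gt x, fun x => exists_lt x, fun S hS => ?_⟩
    obtain ⟨P, F, hF, hFP, hSF⟩ := definable_union h3 S hS
    refine ⟨F, hF, fun C hC => ?_, hSF⟩
    obtain ⟨x, rfl⟩ := hFP C hC
    rcases posClass_cases P x with h | ⟨a, b, h⟩ | ⟨a, h⟩ | ⟨b, h⟩ | h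
    · rw [h]; exact IsInterval.point x
    · rw [h]; exact IsInterval.bounded a b
    · rw [h]; exact IsInterval.above a
    · rw [h]; exact IsInterval.below b
    · rw [h]; exact IsInterval.whole

section Final

variable {U : Type u} [AddCommGroup U] [LinearOrder U] [IsOrderedAddMonoid U] [Nontrivial U]

omit [Nontrivial U] in
/-- A saturated group has infinitesimals. -/
theorem exists_inf (hdU : ∀ (m : ℤ), m ≠ 0 → ∀ g : U, ∃ h : U, m • h = g)
    {κ : Cardinal.{u}} (hκ : ℵ₀ < κ) (hsat : Saturated Log κ U) {o : U} (ho : 0 < o) :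
    ∃ ε : U, 0 < ε ∧ ∀ n : ℕ, n • ε < o := by
  classical
  let g : ℕ → Log.Formula (↥({o} : Set U) ⊕ Fin 1) := fun k => match k with
    | 0 => ltS.formula₂ tzero (Term.var (Sum.inr 0))
    | n + 1 => ltS.formula₂ (tmul n (Term.var (Sum.inr 0))) (Term.var (Sum.inl ⟨o, rfl⟩))
  have hg0 : ∀ x : U, (g 0).Realize (Sum.elim Subtype.val fun _ => x) ↔ 0 < x := by
    intro x
    change Formula.Realize (ltS.formula₂ _ _) _ ↔ _
    rw [Formula.realize_rel₂, og_tzero]
    exact Iff.rfl
  have hgn : ∀ (n : ℕ) (x : U), (g (n + 1)).Realize (Sum.elim Subtype.val fun _ => x) ↔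
      n • x < o := by
    intro n x
    change Formula.Realize (ltS.formula₂ _ _) _ ↔ _
    rw [Formula.realize_rel₂, og_tmul]
    exact Iff.rfl
  obtain ⟨ε, hε⟩ := hsat {o} (by
    rw [Cardinal.mk_singleton]
    exact lt_of_lt_of_le Cardinal.one_lt_aleph0 hκ.le) (Set.range g) (by
    intro F hF
    rw [← Set.image_univ] at hF
    obtain ⟨s', -, hs'⟩ := Finset.subset_set_image_iff.mp hF
    obtain ⟨x, hx⟩ := hdU ((s'.sup id + 1 : ℕ) : ℤ) (by positivity) o
    rw [natCast_zsmul] at hx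
    have hx0 : 0 < x := by
      by_contra hc
      have := nsmul_nonpos (not_lt.mp hc) (s'.sup id + 1)
      rw [hx] at this
      exact absurd ho (not_lt.mpr this)
    refine ⟨x, fun φ hφ => ?_⟩
    rw [← hs'] at hφ
    obtain ⟨k, hk, rfl⟩ := Finset.mem_image.mp hφ
    have hkN : k ≤ s'.sup id := Finset.le_sup (f := id) hk
    cases k with
    | zero => exact (hg0 x).mpr hx0
    | succ n =>
      rw [hgn, ← hx]
      exact (nsmul_lt_nsmul_iff_left hx0).mpr (by omega))
  exact ⟨ε, (hg0 ε).mp (hε _ ⟨0, rfl⟩), fun n => (hgn n ε).mp (hε _ ⟨n + 1, rfl⟩)⟩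

/-- An elementary extension with an element in the cut just below `Up o`. -/
theorem exists_cut {o ε : U} (ho : 0 < o) (hε0 : 0 < ε) (hε : ∀ n : ℕ, n • ε < o) :
    ∃ (W : Type u) (_ : Log.Structure W) (j : U ↪ₑ[Log] W) (b : W),
      (∀ u, u ∉ Up o → Lt ltS (j u) b) ∧ ∀ u, u ∈ Up o → Lt ltS b (j u) := by
  classical
  let g : U → Log.Formula (U ⊕ Fin 1) := fun u =>
    if u ∈ Up o then ltS.formula₂ (Term.var (Sum.inr 0)) (Term.var (Sum.inl u))
    else ltS.formula₂ (Term.var (Sum.inl u)) (Term.var (Sum.inr 0))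
  obtain ⟨W, i, j, b, hb⟩ := Q201.Realize.exists_extension (α := Fin 1) (Set.range g) (by
    intro F hF
    rw [← Set.image_univ] at hF
    obtain ⟨s', -, hs'⟩ := Finset.subset_set_image_iff.mp hF
    obtain ⟨u0, hu0, hmax⟩ := Finset.exists_max_image
      (insert 0 (s'.filter (fun u => u ∉ Up o))) id ⟨0, Finset.mem_insert_self _ _⟩
    have hu0' : u0 ∉ Up o := by
      rcases Finset.mem_insert.mp hu0 with rfl | h
      · exact zero_notMem ho
      · exact (Finset.mem_filter.mp h).2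
    have hx : u0 + ε ∉ Up o := fun h => hu0' (add_inf hε h)
    refine ⟨fun _ => u0 + ε, fun φ hφ => ?_⟩
    rw [← hs'] at hφ
    obtain ⟨u, hu, rfl⟩ := Finset.mem_image.mp hφ
    by_cases h : u ∈ Up o
    · simp only [g, h, if_true]
      rw [Formula.realize_rel₂]
      change u0 + ε < u
      by_contra hc
      exact hx (up_mono h (not_lt.mp hc))
    · simp only [g, h, if_false]
      rw [Formula.realize_rel₂]
      change u < u0 + ε
      have := hmax u (Finset.mem_insert_of_mem (Finset.mem_filter.mpr ⟨hu, h⟩))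
      exact lt_of_le_of_lt this (by simpa using hε0))
  refine ⟨W, i, j, b 0, fun u hu => ?_, fun u hu => ?_⟩
  · have := hb _ ⟨u, rfl⟩
    simp only [g, hu, if_false] at this
    rw [Formula.realize_rel₂] at this
    exact this
  · have := hb _ ⟨u, rfl⟩
    simp only [g, hu, if_true] at this
    rw [Formula.realize_rel₂] at this
    exact this

end Final

/-- The theory of divisible ordered abelian groups is a complete o-minimal theory, and the
cofinality statement of Q1 fails in each of its monster models. -/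
theorem result : OMinimalTheory.{u} ltS Tq ∧
    ∀ (κ : Cardinal.{u}), ℵ₀ < κ → ∀ (U : Type u) [Log.Structure U] [Nonempty U], U ⊨ Tq →
      Saturated Log κ U → StronglyHomogeneous Log κ U → ¬ CofinalityHolds ltS κ U := by
  refine ⟨omin, fun κ hκ U i _ hU hsat _ hcof => ?_⟩
  obtain ⟨g, lo, h1, h2, hdU, rfl⟩ := exists_group U
  obtain ⟨o, ho⟩ := exists_pos (G := U)
  obtain ⟨ε, hε0, hε⟩ := exists_inf hdU hκ hsat ho
  obtain ⟨W, iW, j, b, hb1, hb2⟩ := exists_cut ho hε0 hε
  have hW : W ⊨ Tq := (j.theory_model_iff Tq).mp hU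
  obtain ⟨g', lo', h1', h2', hdW, rfl⟩ := exists_group W
  have hb : InCut j o b := ⟨hb1, hb2⟩
  obtain ⟨M, hM1, hM2, hM3, c, hc, hcM⟩ := counterexample ho hdU hdW hb hε0 hε hκ
  obtain ⟨e, he, hce⟩ := hcof M hM1 W j b hM2 hM3 c hc
  exact hcM e he hce

end Pool.Agent.Results.MP_52937b_lc.NotCofinal
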